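import Pool.Agent.Helper252_Enum.Y2_general

set_option autoImplicit false

namespace Pool.Agent.Results.MP_d12f76_al.AlmostAllGroups

/-- Isomorphism of two group structures on `Fin N`. -/
def Isom (N : ℕ) (g h : Group (Fin N)) : Prop :=
  Nonempty (@MulEquiv (Fin N) (Fin N)
    (@Semigroup.toMul _ (@Monoid.toSemigroup _ (@DivInvMonoid.toMonoid _ (@Group.toDivInvMonoid _ g))))
    (@Semigroup.toMul _ (@Monoid.toSemigroup _ (@DivInvMonoid.toMonoid _ (@Group.toDivInvMonoid _ h)))))

/-- The number of isomorphism classes of groups of order `N`. -/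
noncomputable def numGroups (N : ℕ) : ℕ := Nat.card (Quot (Isom N))

/-- `G` has a normal subgroup `K` such that `A = G / K` is an elementary abelian `p`-group (all
commutators and all `p`-th powers lie in `K`) with `|G| ^ 13 ≤ |A| ^ 20`. -/
def BigQuotient (p : ℕ) (G : Type) [Group G] : Prop :=
  ∃ K : Subgroup G, K.Normal ∧ (∀ x y : G, x * y * x⁻¹ * y⁻¹ ∈ K) ∧ (∀ x : G, x ^ p ∈ K) ∧
    Nat.card G ^ 13 ≤ K.index ^ 20

/-- The number of isomorphism classes of groups of order `N` without such a quotient. -/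
noncomputable def numWithout (p N : ℕ) : ℕ :=
  Nat.card {c : Quot (Isom N) // ∃ g : Group (Fin N), Quot.mk (Isom N) g = c ∧
    ¬ @BigQuotient p (Fin N) g}

/-- For all primes `p` and all `n ≥ n₀`: among the groups of order `p ^ n`, all but a proportion of
at most `p ^ (-⌊n² / 100⌋)` have an elementary abelian quotient `A` with `|A| ^ 20 ≥ |G| ^ 13`. -/
theorem result : ∃ n₀ : ℕ, ∀ p : ℕ, p.Prime → ∀ n : ℕ, n₀ ≤ n →
    (numWithout p (p ^ n) : ℝ) * (p : ℝ) ^ (n ^ 2 / 100) ≤ (numGroups (p ^ n) : ℝ) := by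
  obtain ⟨n₀, h⟩ := Pool.Agent.Helper252_Enum.ratio_general
  refine ⟨n₀, fun p hp n hn => ?_⟩
  exact h p hp n hn (fun g => ¬ @BigQuotient p (Fin (p ^ n)) g) (fun g hg hM =>
    hg (@Pool.Agent.Helper252_Enum.big_quot p n hp (Fin (p ^ n)) g (by simp) hM))

end Pool.Agent.Results.MP_d12f76_al.AlmostAllGroups
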